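import Mathlib

/-!
# A regular graph with two disjoint cliques whose complement has none

A clique means a *maximal* complete vertex set.  We build a 27-regular graph on 108 vertices which
has two disjoint cliques, while any two maximal independent sets share a vertex.

The graph: `W` consists of three copies (index `i`) of the complete tripartite graph with parts
`(i, p)` of size 9; `U` is an independent set of 27 vertices indexed by the triples
`(u 0, u 1, u 2)` of parts, `u` being joined to all vertices of the parts `(i, u i)`.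
Every maximal independent set meets at most one part of each copy, so for two of them some part
`(i, p i)` of each copy is free of both, and then both contain the vertex of `U` indexed by `p`.
-/

namespace Pool.Agent.Results.MP_7a760c_co.RegularCounterexample

/-- `G` has two disjoint cliques, a clique being a *maximal* set of pairwise adjacent vertices. -/
def HasDisjointCliques {V : Type} (G : SimpleGraph V) : Prop :=
  ∃ s t : Set V, Maximal G.IsClique s ∧ Maximal G.IsClique t ∧ Disjoint s t

/-- the vertices: `Sum.inl (i, p, x)` is vertex `x` of part `p` of copy `i`; `Sum.inr u` is the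
vertex of `U` indexed by `u`. -/
abbrev V : Type := (Fin 3 × Fin 3 × Fin 9) ⊕ (Fin 3 × Fin 3 × Fin 3)

/-- coordinate `i` of a triple -/
def crd (u : Fin 3 × Fin 3 × Fin 3) (i : Fin 3) : Fin 3 :=
  if i = 0 then u.1 else if i = 1 then u.2.1 else u.2.2

/-- the adjacency relation, as a Boolean function -/
def adjB : V → V → Bool
  | Sum.inl (i, p, _), Sum.inl (j, q, _) => decide (i = j) && decide (p ≠ q)
  | Sum.inl (i, p, _), Sum.inr u => decide (crd u i = p)
  | Sum.inr u, Sum.inl (i, p, _) => decide (crd u i = p)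
  | Sum.inr _, Sum.inr _ => false

/-- the graph -/
def G : SimpleGraph V where
  Adj a b := adjB a b = true
  symm := by
    constructor
    rintro (⟨i, p, x⟩ | u) (⟨j, q, y⟩ | w) h
    · simp only [adjB, Bool.and_eq_true, decide_eq_true_eq] at h ⊢
      exact ⟨h.1.symm, h.2.symm⟩
    · simpa [adjB] using h
    · simpa [adjB] using h
    · simp [adjB] at h
  loopless := by
    constructor
    rintro (⟨i, p, x⟩ | u) h
    · simp [adjB] at h
    · simp [adjB] at h

instance : DecidableRel G.Adj := fun a b => inferInstanceAs (Decidable (adjB a b = true))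

theorem adj_ll (i p x j q y) : G.Adj (Sum.inl (i, p, x)) (Sum.inl (j, q, y)) ↔ i = j ∧ p ≠ q := by
  change adjB _ _ = true ↔ _
  simp [adjB]

theorem adj_lr (i p x u) : G.Adj (Sum.inl (i, p, x)) (Sum.inr u) ↔ crd u i = p := by
  change adjB _ _ = true ↔ _
  simp [adjB]

theorem adj_rl (i p x u) : G.Adj (Sum.inr u) (Sum.inl (i, p, x)) ↔ crd u i = p := by
  change adjB _ _ = true ↔ _
  simp [adjB]

theorem adj_rr (u w) : ¬ G.Adj (Sum.inr u) (Sum.inr w) := by
  change ¬ (adjB _ _ = true)
  simp [adjB]

theorem reg : ∀ v : V, (Finset.univ.filter (fun w : V => adjB v w = true)).card = 27 := by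
  decide +kernel

theorem regular : G.IsRegularOfDegree 27 := by
  intro v
  rw [← reg v, ← SimpleGraph.card_neighborFinset_eq_degree]
  congr 1
  ext w
  rw [SimpleGraph.mem_neighborFinset]
  simp only [Finset.mem_filter, Finset.mem_univ, true_and]
  rfl

/-- An independent set meets at most one part of every copy. -/
theorem one_part {S : Set V} (hS : Gᶜ.IsClique S) (i : Fin 3) :
    ∃ p : Fin 3, ∀ q : Fin 3, q ≠ p → ∀ x : Fin 9, (Sum.inl (i, q, x) : V) ∉ S := by
  by_cases h : ∃ p x, (Sum.inl (i, p, x) : V) ∈ S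
  · obtain ⟨p, x, hp⟩ := h
    refine ⟨p, fun q hq y hy => ?_⟩
    have hne : (Sum.inl (i, q, y) : V) ≠ Sum.inl (i, p, x) := by
      intro he
      simp only [Sum.inl.injEq, Prod.mk.injEq] at he
      exact hq he.2.1
    have := hS hy hp hne
    rw [SimpleGraph.compl_adj] at this
    exact this.2 ((adj_ll _ _ _ _ _ _).2 ⟨rfl, hq⟩)
  · push Not at h
    exact ⟨0, fun q _ x => h q x⟩

/-- A maximal independent set avoiding the parts `(i, p i)` contains the vertex indexed by `p`. -/
theorem mem_of_avoid {S : Set V} (hS : Maximal Gᶜ.IsClique S) (u : Fin 3 × Fin 3 × Fin 3)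
    (hu : ∀ i x, (Sum.inl (i, crd u i, x) : V) ∉ S) : (Sum.inr u : V) ∈ S := by
  have hcl : Gᶜ.IsClique (insert (Sum.inr u) S) := by
    rw [SimpleGraph.isClique_insert]
    refine ⟨hS.1, fun b hb hne => ?_⟩
    rw [SimpleGraph.compl_adj]
    refine ⟨hne, ?_⟩
    rcases b with ⟨i, q, x⟩ | w
    · rw [adj_rl]
      intro h
      subst h
      exact hu i x hb
    · exact adj_rr u w
  exact hS.2 hcl (Set.subset_insert _ _) (Set.mem_insert _ _)

theorem no_disjoint_compl : ¬ HasDisjointCliques Gᶜ := by
  rintro ⟨S, T, hS, hT, hd⟩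
  have key : ∀ i : Fin 3, ∃ p : Fin 3, ∀ x : Fin 9,
      (Sum.inl (i, p, x) : V) ∉ S ∧ (Sum.inl (i, p, x) : V) ∉ T := by
    intro i
    obtain ⟨p, hp⟩ := one_part hS.1 i
    obtain ⟨q, hq⟩ := one_part hT.1 i
    have h3 : ∀ a b : Fin 3, ∃ c : Fin 3, c ≠ a ∧ c ≠ b := by decide
    obtain ⟨c, hc1, hc2⟩ := h3 p q
    exact ⟨c, fun x => ⟨hp c hc1 x, hq c hc2 x⟩⟩
  choose p hp using key
  have hcrd : ∀ i, crd (p 0, p 1, p 2) i = p i := by
    intro i
    fin_cases i <;> rfl
  have h1 : (Sum.inr (p 0, p 1, p 2) : V) ∈ S :=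
    mem_of_avoid hS _ (fun i x => by rw [hcrd]; exact (hp i x).1)
  have h2 : (Sum.inr (p 0, p 1, p 2) : V) ∈ T :=
    mem_of_avoid hT _ (fun i x => by rw [hcrd]; exact (hp i x).2)
  exact Set.disjoint_left.1 hd h1 h2

/-- a triangle with one vertex in each part of copy `i` -/
def tri (i : Fin 3) : Set V := {v | ∃ p : Fin 3, v = Sum.inl (i, p, 0)}

theorem tri_max (i : Fin 3) : Maximal G.IsClique (tri i) := by
  refine ⟨?_, ?_⟩
  · rintro _ ⟨p, rfl⟩ _ ⟨q, rfl⟩ hne
    refine (adj_ll _ _ _ _ _ _).2 ⟨rfl, ?_⟩
    rintro rfl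
    exact hne rfl
  · intro Y hY hsub v hv
    by_contra hvt
    have hadj : ∀ p : Fin 3, G.Adj v (Sum.inl (i, p, 0)) := by
      intro p
      exact hY hv (hsub ⟨p, rfl⟩) (fun he => hvt ⟨p, he⟩)
    rcases v with ⟨j, q, x⟩ | u
    · have := (adj_ll _ _ _ _ _ _).1 (hadj q)
      exact this.2 rfl
    · have h0 := (adj_rl _ _ _ _).1 (hadj 0)
      have h1 := (adj_rl _ _ _ _).1 (hadj 1)
      rw [h0] at h1
      exact absurd h1 (by decide)

theorem disjoint_cliques : HasDisjointCliques G := by
  refine ⟨tri 0, tri 1, tri_max 0, tri_max 1, ?_⟩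
  rw [Set.disjoint_left]
  rintro _ ⟨p, rfl⟩ ⟨q, hq⟩
  simp only [Sum.inl.injEq, Prod.mk.injEq] at hq
  exact absurd hq.1 (by decide)

/-- There is a finite regular graph (27-regular, on 108 vertices, with at least one edge) which has
two disjoint cliques (maximal complete vertex sets), while its complement has no two disjoint
cliques, i.e. any two maximal independent sets of the graph share a vertex. -/
theorem result :
    ∃ (V : Type) (_ : Fintype V) (_ : DecidableEq V) (G : SimpleGraph V) (_ : DecidableRel G.Adj),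
      Fintype.card V = 108 ∧ G.IsRegularOfDegree 27 ∧ G ≠ ⊥ ∧
        HasDisjointCliques G ∧ ¬ HasDisjointCliques Gᶜ := by
  refine ⟨V, inferInstance, inferInstance, G, inferInstance, ?_, regular, ?_, disjoint_cliques,
    no_disjoint_compl⟩
  · simp [V]
  · intro h
    have := (adj_ll 0 0 0 0 1 0).2 ⟨rfl, by decide⟩
    rw [h] at this
    exact this

end Pool.Agent.Results.MP_7a760c_co.RegularCounterexample
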